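import Mathlib

set_option autoImplicit false

/-!
# Matrices with entries in a finite-dimensional algebra: definitions
-/

namespace Pool.Agent.H676.MM

/-- The product of two `m × m` matrices with entries in the `K`-algebra `C` can be computed with
`r` multiplications in `C`: the factors of each of these multiplications depend `K`-linearly, in an
arbitrary way, on the first and on the second matrix, and the product of the matrices depends
`K`-linearly on the `r` results. -/
def Multiplies (K C : Type) [Field K] [Ring C] [Algebra K C] (m r : ℕ) : Prop :=
  ∃ (α β : Fin r → Matrix (Fin m) (Fin m) C →ₗ[K] C)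
    (γ : Fin r → C →ₗ[K] Matrix (Fin m) (Fin m) C),
    ∀ A B : Matrix (Fin m) (Fin m) C, A * B = ∑ s, γ s (α s A * β s B)

/-- The least `r` such that for SOME nonzero finite-dimensional associative algebra `C` with unit
over `K` the product of two `m × m` matrices with entries in `C` can be computed with `r`
multiplications in `C`. -/
noncomputable def minMul (K : Type) [Field K] (m : ℕ) : ℕ :=
  sInf {r | ∃ (C : Type) (_ : Ring C) (_ : Algebra K C),
    FiniteDimensional K C ∧ Nontrivial C ∧ Multiplies K C m r}

/-- The algebra `∏_{i < k} M_{m^i}(K)^{r^(k-1-i)}`: a product of full matrix algebras. -/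
abbrev Cat (K : Type) [Field K] (m r k : ℕ) : Type :=
  ∀ i : Fin k, Fin (r ^ (k - 1 - i)) → Matrix (Fin (m ^ (i : ℕ))) (Fin (m ^ (i : ℕ))) K

end Pool.Agent.H676.MM
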