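import Pool.Agent.H676.MM.Defs

set_option autoImplicit false

/-!
# Bilinear reductions between algebras
-/

namespace Pool.Agent.H676.MM

open Matrix Finset

variable {K : Type} [Field K]

/-- The multiplication of `D` is obtained from the multiplication of `E` by linear maps. -/
def Emb (K D E : Type) [Field K] [Ring D] [Algebra K D] [Ring E] [Algebra K E] : Prop :=
  ∃ (α β : D →ₗ[K] E) (γ : E →ₗ[K] D), ∀ x y : D, x * y = γ (α x * β y)

section

variable {D E F : Type} [Ring D] [Algebra K D] [Ring E] [Algebra K E] [Ring F] [Algebra K F]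

theorem Emb.refl : Emb K D D := ⟨.id, .id, .id, fun _ _ => rfl⟩

theorem Emb.trans (h : Emb K D E) (h' : Emb K E F) : Emb K D F := by
  obtain ⟨α, β, γ, h⟩ := h
  obtain ⟨α', β', γ', h'⟩ := h'
  refine ⟨α' ∘ₗ α, β' ∘ₗ β, γ ∘ₗ γ', fun x y => ?_⟩
  simp only [LinearMap.comp_apply]
  rw [h, h']

theorem Emb.of_equiv (e : D ≃ₐ[K] E) : Emb K D E :=
  ⟨e.toLinearMap, e.toLinearMap, e.symm.toLinearMap, fun x y => by simp⟩

theorem Emb.pi {ι : Type} {D E : ι → Type} [∀ i, Ring (D i)] [∀ i, Algebra K (D i)]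
    [∀ i, Ring (E i)] [∀ i, Algebra K (E i)] (h : ∀ i, Emb K (D i) (E i)) :
    Emb K (∀ i, D i) (∀ i, E i) := by
  choose α β γ h using h
  refine ⟨LinearMap.pi fun i => α i ∘ₗ LinearMap.proj i,
    LinearMap.pi fun i => β i ∘ₗ LinearMap.proj i,
    LinearMap.pi fun i => γ i ∘ₗ LinearMap.proj i, fun x y => ?_⟩
  funext i
  simp [h i]

end

/-- `Multiplies` in terms of `Emb` -/
theorem multiplies_iff {C : Type} [Ring C] [Algebra K C] {m r : ℕ} :
    Multiplies K C m r ↔ Emb K (Matrix (Fin m) (Fin m) C) (Fin r → C) := by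
  constructor
  · rintro ⟨α, β, γ, h⟩
    refine ⟨LinearMap.pi α, LinearMap.pi β, ∑ s, γ s ∘ₗ LinearMap.proj s, fun A B => ?_⟩
    rw [h A B]
    simp
  · rintro ⟨α, β, γ, h⟩
    refine ⟨fun s => LinearMap.proj s ∘ₗ α, fun s => LinearMap.proj s ∘ₗ β,
      fun s => γ ∘ₗ LinearMap.single K (fun _ => C) s, fun A B => ?_⟩
    rw [h A B]
    simp only [LinearMap.comp_apply, LinearMap.proj_apply, LinearMap.coe_single]
    rw [← map_sum]
    congr 1
    funext s
    simp [Finset.sum_apply, Pi.single_apply]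

end Pool.Agent.H676.MM
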