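import Pool.Agent.H676.MM.Emb

set_option autoImplicit false

/-!
# At least `m ^ 2 + 1` multiplications are needed over every finite-dimensional algebra
-/

namespace Pool.Agent.H676.MM

open Matrix Finset

variable {K : Type} [Field K]

section

variable {D E : Type} [Ring D] [Algebra K D] [Ring E] [Algebra K E]

theorem emb_injective {α β : D →ₗ[K] E} {γ : E →ₗ[K] D} (h : ∀ x y : D, x * y = γ (α x * β y)) :
    Function.Injective α := by
  rw [← LinearMap.ker_eq_bot, LinearMap.ker_eq_bot']
  intro x hx
  rw [← mul_one x, h, hx, zero_mul, map_zero]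

/-- Isotopic algebras with unit are isomorphic. -/
theorem exists_iso [FiniteDimensional K D] [FiniteDimensional K E] (h : Emb K D E)
    (hd : Module.finrank K E ≤ Module.finrank K D) :
    ∃ φ : D →ₗ[K] E, Function.Bijective φ ∧ (∀ x y, φ (x * y) = φ x * φ y) ∧ φ 1 = 1 := by
  obtain ⟨α, β, γ, h⟩ := h
  have hα := emb_injective h
  have hd' : Module.finrank K D = Module.finrank K E :=
    le_antisymm (LinearMap.finrank_le_finrank_of_injective hα) hd
  have hγs : Function.Surjective γ := fun x => ⟨α x * β 1, by rw [← h, mul_one]⟩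
  have hγ : Function.Injective γ :=
    (LinearMap.injective_iff_surjective_of_finrank_eq_finrank hd'.symm).2 hγs
  have hαs : Function.Surjective α :=
    (LinearMap.injective_iff_surjective_of_finrank_eq_finrank hd').1 hα
  let g : E ≃ₗ[K] D := LinearEquiv.ofBijective γ ⟨hγ, hγs⟩
  -- `ψ (x * y) = α x * β y`
  have hψ : ∀ x y : D, g.symm (x * y) = α x * β y := fun x y => by
    rw [LinearEquiv.symm_apply_eq]
    exact h x y
  set u := α 1 with hu
  set v := β 1 with hv
  have h1 : ∀ x, g.symm x = α x * v := fun x => by rw [← hψ, mul_one]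
  have h2 : ∀ y, g.symm y = u * β y := fun y => by rw [← hψ, one_mul]
  -- `v` is a unit
  have hsurj : ∀ z : E, ∃ x : E, x * v = z := fun z => ⟨α (g z), by rw [← h1]; simp⟩
  have hsurj' : ∀ z : E, ∃ x : E, u * x = z := fun z => ⟨β (g z), by rw [← h2]; simp⟩
  obtain ⟨v', hv'⟩ := hsurj 1
  obtain ⟨u', hu'⟩ := hsurj' 1
  have hfin : ∀ a b : E, a * b = 1 → b * a = 1 := by
    intro a b hab
    have hs : Function.Surjective (LinearMap.mulLeft K a) := fun z => ⟨b * z, by
      simp [← mul_assoc, hab]⟩
    have hi := LinearMap.injective_iff_surjective.2 hs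
    apply hi
    simp [← mul_assoc, hab]
  have hvv : v * v' = 1 := hfin _ _ hv'
  have huu : u' * u = 1 := hfin _ _ hu'
  have hα' : ∀ x, α x = g.symm x * v' := fun x => by rw [h1, mul_assoc, hvv, mul_one]
  have hβ' : ∀ y, β y = u' * g.symm y := fun y => by rw [h2, ← mul_assoc, huu, one_mul]
  refine ⟨(LinearMap.mulRight K (v' * u')) ∘ₗ g.symm.toLinearMap, ?_, ?_, ?_⟩
  · have hb : Function.Injective (LinearMap.mulRight K (v' * u')) := by
      intro a b hab
      simp only [LinearMap.mulRight_apply] at hab
      have e : v' * u' * (u * v) = 1 := by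
        rw [mul_assoc, ← mul_assoc u', huu, one_mul, hv']
      calc a = a * (v' * u') * (u * v) := by rw [mul_assoc, e, mul_one]
        _ = b * (v' * u') * (u * v) := by rw [hab]
        _ = b := by rw [mul_assoc, e, mul_one]
    have hb' : Function.Bijective (LinearMap.mulRight K (v' * u')) :=
      ⟨hb, LinearMap.injective_iff_surjective.1 hb⟩
    rw [LinearMap.coe_comp]
    exact hb'.comp g.symm.bijective
  · intro x y
    simp only [LinearMap.comp_apply, LinearEquiv.coe_coe, LinearMap.mulRight_apply]
    rw [hψ, hα', hβ']
    simp only [mul_assoc]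
  · simp only [LinearMap.comp_apply, LinearEquiv.coe_coe, LinearMap.mulRight_apply]
    rw [h1, ← hu, mul_assoc, ← mul_assoc v, hvv, one_mul, hu']

end

/-- the center as a submodule -/
def cen (K D : Type) [Field K] [Ring D] [Algebra K D] : Submodule K D :=
  Subalgebra.toSubmodule (Subalgebra.center K D)

theorem mem_cen {D : Type} [Ring D] [Algebra K D] {x : D} :
    x ∈ cen K D ↔ ∀ y, y * x = x * y := by
  simp [cen, Subalgebra.mem_center_iff]

theorem no_iso {C : Type} [Ring C] [Algebra K C] [FiniteDimensional K C] [Nontrivial C] {m : ℕ}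
    (hm : 2 ≤ m)
    {φ : Matrix (Fin m) (Fin m) C →ₗ[K] (Fin (m ^ 2) → C)} (hφ : Function.Bijective φ)
    (hmul : ∀ x y, φ (x * y) = φ x * φ y) : False := by
  have hm0 : 0 < m := by omega
  let o : Fin m := ⟨0, hm0⟩
  let g : Matrix (Fin m) (Fin m) C ≃ₗ[K] (Fin (m ^ 2) → C) := LinearEquiv.ofBijective φ hφ
  have hg : ∀ x, g x = φ x := fun x => rfl
  -- central families give central matrices
  have hcen : ∀ f : Fin (m ^ 2) → cen K C, ∀ y : Matrix (Fin m) (Fin m) C,
      y * g.symm (fun s => (f s : C)) = g.symm (fun s => (f s : C)) * y := by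
    intro f y
    apply hφ.1
    rw [hmul, hmul]
    have h1 : φ (g.symm (fun s => (f s : C))) = fun s => (f s : C) := by
      rw [← hg]; simp
    rw [h1]
    funext s
    exact (mem_cen.1 (f s).2) _
  -- central matrices are scalar
  have hscal : ∀ X : Matrix (Fin m) (Fin m) C, (∀ y, y * X = X * y) →
      (∀ c, c * X o o = X o o * c) ∧ ∀ i j, X i j = if i = j then X o o else 0 := by
    intro X hX
    have e : ∀ (i j a b : Fin m) (c : C),
        (Matrix.single i j c * X) a b = (X * Matrix.single i j c) a b := fun i j a b c => by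
      rw [hX]
    refine ⟨fun c => ?_, fun i j => ?_⟩
    · have := e o o o o c
      simpa using this
    · by_cases hij : i = j
      · subst hij
        rw [if_pos rfl]
        have := e i o i o 1
        simp only [Matrix.single_mul_apply_same, one_mul, Matrix.mul_single_apply_same,
          mul_one] at this
        exact this.symm
      · rw [if_neg hij]
        have := e j j i j 1
        simp only [Matrix.mul_single_apply_same, mul_one] at this
        rw [← this, Matrix.single_mul_apply_of_ne]
        exact hij
  let Ψ : (Fin (m ^ 2) → cen K C) →ₗ[K] cen K C :=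
    { toFun := fun f => ⟨g.symm (fun s => (f s : C)) o o,
        mem_cen.2 (hscal _ (hcen f)).1⟩
      map_add' := fun f f' => by
        apply Subtype.ext
        change g.symm ((fun s => (f s : C)) + fun s => (f' s : C)) o o =
          g.symm (fun s => (f s : C)) o o + g.symm (fun s => (f' s : C)) o o
        rw [map_add, Matrix.add_apply]
      map_smul' := fun c f => by
        apply Subtype.ext
        change g.symm (c • fun s => (f s : C)) o o = c • g.symm (fun s => (f s : C)) o o
        rw [map_smul, Matrix.smul_apply] }
  have hΨ : Function.Injective Ψ := by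
    rw [← LinearMap.ker_eq_bot, LinearMap.ker_eq_bot']
    intro f hf
    have h0 : g.symm (fun s => (f s : C)) o o = 0 := congrArg Subtype.val hf
    have h1 : g.symm (fun s => (f s : C)) = 0 := by
      ext i j
      rw [(hscal _ (hcen f)).2 i j, h0]
      simp
    have h2 : (fun s => (f s : C)) = 0 := by
      have := congrArg g h1
      simpa using this
    funext s
    ext
    exact congrFun h2 s
  have h3 := LinearMap.finrank_le_finrank_of_injective hΨ
  have h4 : 0 < Module.finrank K (cen K C) := by
    have : Nontrivial (cen K C) := ⟨⟨⟨1, mem_cen.2 fun y => by simp⟩, 0, fun h => by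
      exact one_ne_zero (congrArg Subtype.val h)⟩⟩
    exact Module.finrank_pos
  rw [Module.finrank_pi_fintype] at h3
  simp only [Finset.sum_const, Finset.card_univ, Fintype.card_fin, smul_eq_mul] at h3
  have h5 : 4 ≤ m ^ 2 := by nlinarith
  nlinarith

/-- Over every nonzero finite-dimensional algebra, products of `m × m` matrices take more than
`m ^ 2` multiplications, `m ≥ 2`. -/
theorem sq_lt_of_multiplies {C : Type} [Ring C] [Algebra K C] [FiniteDimensional K C]
    [Nontrivial C] {m r : ℕ} (hm : 2 ≤ m) (h : Multiplies K C m r) : m ^ 2 < r := by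
  rw [multiplies_iff] at h
  have hC : 0 < Module.finrank K C := Module.finrank_pos
  have hle : m ^ 2 ≤ r := by
    obtain ⟨α, β, γ, h⟩ := h
    have := LinearMap.finrank_le_finrank_of_injective (emb_injective h)
    rw [Module.finrank_matrix, Module.finrank_pi_fintype] at this
    simp only [Fintype.card_fin, Finset.sum_const, Finset.card_univ, smul_eq_mul] at this
    have h1 : m ^ 2 * Module.finrank K C ≤ r * Module.finrank K C := by
      calc _ = m * m * Module.finrank K C := by ring
        _ ≤ _ := this
    exact Nat.le_of_mul_le_mul_right h1 hC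
  rcases hle.lt_or_eq with h1 | h1
  · exact h1
  · exfalso
    subst h1
    obtain ⟨φ, hφ, hmul, -⟩ := exists_iso h (by
      rw [Module.finrank_matrix, Module.finrank_pi_fintype]
      simp only [Fintype.card_fin, Finset.sum_const, Finset.card_univ, smul_eq_mul]
      apply le_of_eq
      ring)
    exact no_iso hm hφ hmul

end Pool.Agent.H676.MM
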