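import Pool.Agent.H676.MM.Upper
import Pool.Agent.H676.MM.Lower
import Pool.Agent.H676.G.R_seed8.W956.KF.Growth

set_option autoImplicit false

/-!
# The number of multiplications and the exponent
-/

namespace Pool.Agent.H676.MM

open Finset Filter Topology Pool.Agent.W956.KF Pool.Agent.H826R3.SM

variable {K : Type} [Field K]

theorem le_of_pow_le {a b D : ℝ} (hb : 0 ≤ b) (h : ∀ k : ℕ, a ^ k ≤ D * b ^ k) :
    a ≤ b := by
  by_contra hcon
  push Not at hcon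
  have ha0 : 0 < a := lt_of_le_of_lt hb hcon
  have h1 : Tendsto (fun k : ℕ => D * (b / a) ^ k) atTop (𝓝 (D * 0)) :=
    (tendsto_pow_atTop_nhds_zero_of_lt_one (by positivity) ((div_lt_one ha0).2 hcon)).const_mul D
  rw [mul_zero] at h1
  obtain ⟨k, hk⟩ := (h1.eventually_lt_const (zero_lt_one)).exists
  have h2 := h k
  rw [div_pow, ← mul_div_assoc, div_lt_one (pow_pos ha0 k)] at hk
  linarith

/-- lower bound for the number of multiplications -/
theorem rpow_omega_le_of_multiplies {C : Type} [Ring C] [Algebra K C] [FiniteDimensional K C]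
    [Nontrivial C] {m r : ℕ} (hm : 1 ≤ m) (h : Multiplies K C m r) :
    (m : ℝ) ^ omega K ≤ r := by
  rw [multiplies_iff] at h
  rw [omega_eq]
  have hm0 : (0 : ℝ) < m := by exact_mod_cast hm
  refine le_of_pow_le (D := (Module.finrank K C : ℝ) ^ 2) (by positivity) fun k => ?_
  have h1 := rank_of_emb (emb_pow h k)
  have h2 : trank K (m ^ k) (m ^ k) (m ^ k) ≤ r ^ k * Module.finrank K C ^ 2 := Nat.sInf_le h1
  have h3 := rpow_omega_le K (m ^ k) (Nat.one_le_pow _ _ hm)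
  have e : ((m : ℝ) ^ omegaMM K) ^ k = ((m ^ k : ℕ) : ℝ) ^ omegaMM K := by
    push_cast
    rw [← Real.rpow_natCast, ← Real.rpow_natCast, ← Real.rpow_mul hm0.le,
      ← Real.rpow_mul hm0.le, mul_comm]
  rw [e]
  refine h3.trans ?_
  calc (trank K (m ^ k) (m ^ k) (m ^ k) : ℝ) ≤ ((r ^ k * Module.finrank K C ^ 2 : ℕ) : ℝ) := by
        exact_mod_cast h2
    _ = _ := by push_cast; ring

/-- enough multiplications suffice for the powers -/
theorem exists_rankLE {m r : ℕ} (hm : 1 ≤ m) (h : (m : ℝ) ^ omega K < r) :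
    ∃ k : ℕ, 0 < k ∧ RankLE K (m ^ k) (m ^ k) (m ^ k) (r ^ k) := by
  rw [omega_eq] at h
  have hm0 : (0 : ℝ) < m := by exact_mod_cast hm
  have hm1 : (1 : ℝ) ≤ m := by exact_mod_cast hm
  have hr0 : (0 : ℝ) < r := lt_of_le_of_lt (Real.rpow_nonneg hm0.le _) h
  have hcont : Continuous fun τ : ℝ => (m : ℝ) ^ τ := Real.continuous_const_rpow hm0.ne'
  have h1 : ∀ᶠ τ in 𝓝 (omegaMM K), (m : ℝ) ^ τ < r := by
    have := (hcont.tendsto (omegaMM K)).eventually_lt_const h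
    exact this
  have h2 : ∀ᶠ τ in 𝓝[>] (omegaMM K), (m : ℝ) ^ τ < r := h1.filter_mono nhdsWithin_le_nhds
  obtain ⟨τ, hτ1, hτ2⟩ := (h2.and self_mem_nhdsWithin).exists
  obtain ⟨τ', ⟨D, hD⟩, hττ⟩ := exists_lt_of_csInf_lt (omega_set_nonempty (F := K)) hτ2
  have hlt : (m : ℝ) ^ τ' < r :=
    lt_of_le_of_lt (Real.rpow_le_rpow_of_exponent_le hm1 hττ.le) hτ1
  have hpos : (0 : ℝ) < (m : ℝ) ^ τ' := Real.rpow_pos_of_pos hm0 _
  have h3 : Tendsto (fun k : ℕ => D * ((m : ℝ) ^ τ' / r) ^ k) atTop (𝓝 (D * 0)) :=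
    (tendsto_pow_atTop_nhds_zero_of_lt_one (by positivity) ((div_lt_one hr0).2 hlt)).const_mul D
  rw [mul_zero] at h3
  obtain ⟨k, hk1, hk2⟩ := ((h3.eventually_lt_const (zero_lt_one)).and
    (eventually_gt_atTop 0)).exists
  refine ⟨k, hk2, (rankLE_trank K _ _ _).mono ?_⟩
  have h4 := hD (m ^ k)
  rw [← trank_eq_rk] at h4
  have e : ((m ^ k : ℕ) : ℝ) ^ τ' = ((m : ℝ) ^ τ') ^ k := by
    push_cast
    rw [← Real.rpow_natCast, ← Real.rpow_natCast, ← Real.rpow_mul hm0.le,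
      ← Real.rpow_mul hm0.le, mul_comm]
  rw [e] at h4
  have h5 : D * ((m : ℝ) ^ τ') ^ k < (r : ℝ) ^ k := by
    rw [div_pow, ← mul_div_assoc, div_lt_one (pow_pos hr0 k)] at hk1
    exact hk1
  have h6 : (trank K (m ^ k) (m ^ k) (m ^ k) : ℝ) ≤ ((r ^ k : ℕ) : ℝ) := by
    push_cast
    exact h4.trans h5.le
  exact_mod_cast h6

theorem exists_multiplies {m r : ℕ} (hm : 1 ≤ m) (h : (m : ℝ) ^ omega K < r) :
    ∃ k : ℕ, 0 < k ∧ Multiplies K (Cat K m r k) m r := by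
  obtain ⟨k, hk, h⟩ := exists_rankLE hm h
  exact ⟨k, hk, multiplies_cat hk h⟩

theorem cat_nontrivial {m r k : ℕ} (hm : 0 < m) (hr : 0 < r) (hk : 0 < k) :
    Nontrivial (Cat K m r k) := by
  have : Inhabited (Fin k) := ⟨⟨0, hk⟩⟩
  have h1 : ∀ i : Fin k, Nonempty (Fin (r ^ (k - 1 - (i : ℕ)))) := fun i =>
    ⟨⟨0, pow_pos hr _⟩⟩
  have h2 : ∀ i : Fin k, Nonempty (Fin (m ^ (i : ℕ))) := fun i => ⟨⟨0, pow_pos hm _⟩⟩
  have h3 : ∀ i : Fin k, Nontrivial (Fin (r ^ (k - 1 - (i : ℕ))) →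
      Matrix (Fin (m ^ (i : ℕ))) (Fin (m ^ (i : ℕ))) K) := fun i => by
    have := h1 i
    have := h2 i
    infer_instance
  exact Pi.nontrivial

/-- the set of possible numbers of multiplications -/
def Nums (K : Type) [Field K] (m : ℕ) : Set ℕ :=
  {r | ∃ (C : Type) (_ : Ring C) (_ : Algebra K C),
    FiniteDimensional K C ∧ Nontrivial C ∧ Multiplies K C m r}

theorem mem_nums {m r : ℕ} (hm : 1 ≤ m) (h : (m : ℝ) ^ omega K < r) : r ∈ Nums K m := by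
  obtain ⟨k, hk, h'⟩ := exists_multiplies hm h
  have hm0 : (0 : ℝ) < m := by exact_mod_cast hm
  have hr0 : (0 : ℝ) < r := lt_of_le_of_lt (Real.rpow_nonneg hm0.le _) h
  have hr1 : 0 < r := by exact_mod_cast hr0
  exact ⟨Cat K m r k, inferInstance, inferInstance, inferInstance,
    cat_nontrivial hm hr1 hk, h'⟩

theorem nums_nonempty {m : ℕ} (hm : 1 ≤ m) : (Nums K m).Nonempty :=
  ⟨⌊(m : ℝ) ^ omega K⌋₊ + 1, mem_nums hm (by
    push_cast
    exact Nat.lt_floor_add_one _)⟩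

theorem minMul_mem {m : ℕ} (hm : 1 ≤ m) : minMul K m ∈ Nums K m :=
  Nat.sInf_mem (nums_nonempty hm)

theorem rpow_omega_le_minMul {m : ℕ} (hm : 1 ≤ m) : (m : ℝ) ^ omega K ≤ minMul K m := by
  obtain ⟨C, _, _, h1, h2, h3⟩ := minMul_mem (K := K) hm
  exact rpow_omega_le_of_multiplies hm h3

theorem minMul_le_of_lt {m r : ℕ} (hm : 1 ≤ m) (h : (m : ℝ) ^ omega K < r) : minMul K m ≤ r :=
  Nat.sInf_le (mem_nums hm h)

theorem minMul_le_floor {m : ℕ} (hm : 1 ≤ m) : minMul K m ≤ ⌊(m : ℝ) ^ omega K⌋₊ + 1 :=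
  minMul_le_of_lt hm (by
    push_cast
    exact Nat.lt_floor_add_one _)

theorem minMul_le_add_one {m : ℕ} (hm : 1 ≤ m) : (minMul K m : ℝ) ≤ (m : ℝ) ^ omega K + 1 := by
  have h := minMul_le_floor (K := K) hm
  have h1 : (minMul K m : ℝ) ≤ ((⌊(m : ℝ) ^ omega K⌋₊ + 1 : ℕ) : ℝ) := by exact_mod_cast h
  push_cast at h1
  have h2 := Nat.floor_le (Real.rpow_nonneg (Nat.cast_nonneg m) (omega K) : (0:ℝ) ≤ (m : ℝ) ^ omega K)
  linarith

theorem sq_lt_minMul {m : ℕ} (hm : 2 ≤ m) : m ^ 2 < minMul K m := by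
  obtain ⟨C, _, _, h1, h2, h3⟩ := minMul_mem (K := K) (m := m) (by omega)
  exact sq_lt_of_multiplies hm h3

end Pool.Agent.H676.MM
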