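import Pool.Agent.H676.MM.Emb

set_option autoImplicit false

/-!
# One multiplication suffices over an infinite-dimensional algebra
-/

namespace Pool.Agent.H676.MM

open Matrix Finset

variable {K : Type} [Field K]

theorem nonempty_linearEquiv {m : ℕ} (hm : 1 ≤ m) :
    Nonempty ((Fin m → (ℕ →₀ K)) ≃ₗ[K] (ℕ →₀ K)) := by
  have : Nonempty (Fin m) := ⟨⟨0, hm⟩⟩
  obtain ⟨e⟩ : Nonempty (Fin m × ℕ ≃ ℕ) := by
    have : Countable (Fin m × ℕ) := inferInstance
    have : Infinite (Fin m × ℕ) := Prod.infinite_of_right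
    exact nonempty_equiv_of_countable
  exact ⟨((Finsupp.linearEquivFunOnFinite K (ℕ →₀ K) (Fin m)).symm.trans
    (Finsupp.curryLinearEquiv K).symm).trans (Finsupp.domLCongr e)⟩

/-- Over the algebra of all endomorphisms of a vector space of countable dimension one
multiplication suffices for matrices of every size. -/
theorem multiplies_one {m : ℕ} (hm : 1 ≤ m) :
    Multiplies K (Module.End K (ℕ →₀ K)) m 1 := by
  obtain ⟨e⟩ := nonempty_linearEquiv (K := K) hm
  rw [multiplies_iff]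
  have e1 : Matrix (Fin m) (Fin m) (Module.End K (ℕ →₀ K)) ≃ₐ[K] Module.End K (ℕ →₀ K) :=
    (endVecAlgEquivMatrixEnd (Fin m) K K (ℕ →₀ K)).symm.trans (e.conjAlgEquiv K)
  have e2 : Module.End K (ℕ →₀ K) ≃ₐ[K] (Fin 1 → Module.End K (ℕ →₀ K)) :=
    (AlgEquiv.funUnique K (Fin 1) (Module.End K (ℕ →₀ K))).symm
  exact Emb.of_equiv (e1.trans e2)

end Pool.Agent.H676.MM
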