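import Pool.Agent.H676.MM.Num
import Pool.Agent.H676.MM.Inf
import Pool.Agent.H676.G.R_pool_sql_team_seeded_1e53cb71.Helper16K9.Fast.Main

set_option autoImplicit false

/-!
# Growth of the circuit size and the least number of multiplications in an algebra
-/

namespace Pool.Agent.H676.MM

open Finset Filter Topology Pool.Agent.W956.KF Pool.Agent.H826R3.SM Pool.Agent.H792_Clique
open Pool.Agent.H522R2 Pool.Agent.H522R2.Circuit Pool.Agent.Helper16K9.Fast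

variable {K : Type} [Field K]

theorem mulMM_le_sizeMM (m : ℕ) : mulMM K m ≤ sizeMM K m := by
  obtain ⟨C, hC, hs⟩ := exists_circuit_MM K m
  have h1 : mulMM K m ≤ C.nonscalarCount := Nat.sInf_le ⟨C, hC, rfl⟩
  have h3 := C.nonscalarCount_le_mulCount
  have h4 := C.mulCount_le_size
  omega

theorem trank_le_two_size (m : ℕ) : trank K m m m ≤ 2 * sizeMM K m := by
  have h1 := mulMM_le_sizeMM (K := K) m
  have h2 := trank_le_mul (F := K) m
  omega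

theorem superlinear_size_iff : Superlinear (sizeMM K) ↔ 2 < omega K := by
  rw [omega_eq]
  exact superlinear_iff (K := K) (f := sizeMM K) (c := 2) (by norm_num) trank_le_two_size
    fun τ hτ => sizeMM_upper hτ

theorem sq_rpow {m : ℕ} (hm : 1 ≤ m) (α : ℝ) : ((m : ℝ) ^ 2) ^ α = (m : ℝ) ^ (2 * α) := by
  have hm0 : (0 : ℝ) < m := by exact_mod_cast hm
  rw [← Real.rpow_natCast (m : ℝ) 2, ← Real.rpow_mul hm0.le]
  norm_num

theorem nearly_linear_iff : (∀ α : ℝ, 1 < α → ∃ D : ℝ, ∀ m : ℕ,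
    (sizeMM K m : ℝ) ≤ D * ((m : ℝ) ^ 2) ^ α) ↔ omega K ≤ 2 := by
  rw [omega_eq]
  constructor
  · intro h
    refine le_of_forall_pos_le_add fun ε hε => ?_
    obtain ⟨D, hD⟩ := h (1 + ε / 2) (by linarith)
    refine omega_le_of_infinite (K := K) (f := sizeMM K) (c := 2) trank_le_two_size (D := D) ?_
    refine (Set.infinite_of_forall_exists_gt fun a => ⟨a + 1, ?_, Nat.lt_succ_self a⟩)
    have := hD (a + 1)
    rw [sq_rpow (by omega)] at this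
    rw [Set.mem_ofPred_eq]
    convert this using 3
    ring
  · intro h α hα
    obtain ⟨D, hD⟩ := sizeMM_upper (K := K) (τ := 2 * α) (by linarith)
    refine ⟨D, fun m => ?_⟩
    rcases Nat.eq_zero_or_pos m with hm | hm
    · subst hm
      have := hD 0
      simp only [Nat.cast_zero] at this ⊢
      rw [zero_pow two_ne_zero, Real.zero_rpow (by linarith)]
      rwa [Real.zero_rpow (by linarith)] at this
    · rw [sq_rpow hm]
      exact hD m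

/-- the exponent two -/
theorem minMul_eq_of_le {m : ℕ} (hm : 2 ≤ m) (h : omega K ≤ 2) : minMul K m = m ^ 2 + 1 := by
  have hm1 : (1 : ℝ) ≤ m := by exact_mod_cast (by omega : 1 ≤ m)
  have h1 : minMul K m ≤ m ^ 2 + 1 := by
    refine minMul_le_of_lt (by omega) ?_
    calc (m : ℝ) ^ omega K ≤ (m : ℝ) ^ (2 : ℝ) := Real.rpow_le_rpow_of_exponent_le hm1 h
      _ = (m : ℝ) ^ 2 := by norm_cast
      _ < ((m ^ 2 + 1 : ℕ) : ℝ) := by push_cast; linarith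
  have h2 := sq_lt_minMul (K := K) hm
  omega

theorem exists_of_lt (h : 2 < omega K) : ∃ m : ℕ, 2 ≤ m ∧ m ^ 2 + 2 ≤ minMul K m := by
  have hlim : Tendsto (fun q : ℕ => (q : ℝ) ^ (omega K - 2)) atTop atTop :=
    (tendsto_rpow_atTop (by linarith)).comp tendsto_natCast_atTop_atTop
  obtain ⟨m, hm1, hm2⟩ := ((hlim.eventually_ge_atTop 2).and (eventually_ge_atTop 2)).exists
  refine ⟨m, hm2, ?_⟩
  have hm0 : (0 : ℝ) < m := by exact_mod_cast (by omega : 0 < m)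
  have h1 : (2 : ℝ) ≤ m := by exact_mod_cast hm2
  have h2 : (m : ℝ) ^ omega K = (m : ℝ) ^ (omega K - 2) * (m : ℝ) ^ 2 := by
    rw [← Real.rpow_natCast (m : ℝ) 2, ← Real.rpow_add hm0]
    congr 1
    push_cast
    ring
  have h3 : (m : ℝ) ^ 2 + 2 ≤ (m : ℝ) ^ omega K := by
    rw [h2]
    nlinarith [mul_le_mul_of_nonneg_right hm1 (sq_nonneg (m : ℝ))]
  have h4 := rpow_omega_le_minMul (K := K) (m := m) (by omega)
  have h5 : ((m ^ 2 + 2 : ℕ) : ℝ) ≤ minMul K m := by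
    push_cast
    linarith
  exact_mod_cast h5

theorem two_lt_of {m : ℕ} (hm : 2 ≤ m) (h : m ^ 2 + 2 ≤ minMul K m) : 2 < omega K := by
  by_contra hcon
  push Not at hcon
  have := minMul_eq_of_le hm hcon
  omega

theorem superlinear_iff_minMul : Superlinear (sizeMM K) ↔
    ∃ m : ℕ, 2 ≤ m ∧ m ^ 2 + 2 ≤ minMul K m := by
  rw [superlinear_size_iff]
  exact ⟨exists_of_lt, fun ⟨m, hm, h⟩ => two_lt_of hm h⟩

theorem nearly_iff_minMul : (∀ α : ℝ, 1 < α → ∃ D : ℝ, ∀ m : ℕ,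
    (sizeMM K m : ℝ) ≤ D * ((m : ℝ) ^ 2) ^ α) ↔ ∀ m : ℕ, 2 ≤ m → minMul K m = m ^ 2 + 1 := by
  rw [nearly_linear_iff]
  constructor
  · intro h m hm
    exact minMul_eq_of_le hm h
  · intro h
    by_contra hcon
    push Not at hcon
    obtain ⟨m, hm, h1⟩ := exists_of_lt hcon
    have := h m hm
    omega

/-- the gap -/
theorem gap : (∀ m : ℕ, 2 ≤ m → minMul K m = m ^ 2 + 1) ∨
    ∃ α : ℝ, 1 < α ∧ ∀ m : ℕ, 1 ≤ m → ((m : ℝ) ^ 2) ^ α ≤ minMul K m := by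
  rcases le_or_gt (omega K) 2 with h | h
  · exact Or.inl fun m hm => minMul_eq_of_le hm h
  · refine Or.inr ⟨omega K / 2, by linarith, fun m hm => ?_⟩
    rw [sq_rpow hm, mul_div_cancel₀ _ (two_ne_zero)]
    exact rpow_omega_le_minMul hm

theorem lower_all {m : ℕ} (hm : 2 ≤ m) {n : ℕ} (hn : 1 ≤ n) :
    (n : ℝ) ^ Real.logb m ((minMul K m : ℝ) - 1) ≤ 2 * mulMM K n := by
  have hm1 : (1 : ℝ) < m := by exact_mod_cast (by omega : 1 < m)
  have hn1 : (1 : ℝ) ≤ n := by exact_mod_cast hn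
  have h1 := minMul_le_add_one (K := K) (m := m) (by omega)
  have h2 : (4 : ℝ) < minMul K m := by
    have h := sq_lt_minMul (K := K) hm
    have h4 : 4 ≤ m ^ 2 := by nlinarith
    exact_mod_cast (by omega : 4 < minMul K m)
  have h3 : Real.logb m ((minMul K m : ℝ) - 1) ≤ omega K := by
    rw [Real.logb_le_iff_le_rpow hm1 (by linarith)]
    linarith
  calc (n : ℝ) ^ Real.logb m ((minMul K m : ℝ) - 1) ≤ (n : ℝ) ^ omega K :=
        Real.rpow_le_rpow_of_exponent_le hn1 h3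
    _ ≤ trank K n n n := by rw [omega_eq]; exact rpow_omega_le K n hn
    _ ≤ ((2 * mulMM K n : ℕ) : ℝ) := by exact_mod_cast trank_le_mul n
    _ = 2 * mulMM K n := by push_cast; ring

theorem upper_all {m : ℕ} (hm : 2 ≤ m) {τ : ℝ} (hτ : Real.logb m (minMul K m) < τ) :
    ∃ D : ℝ, ∀ n : ℕ, (sizeMM K n : ℝ) ≤ D * (n : ℝ) ^ τ := by
  refine sizeMM_upper (lt_of_le_of_lt ?_ hτ)
  have hm1 : (1 : ℝ) < m := by exact_mod_cast (by omega : 1 < m)
  have h1 := rpow_omega_le_minMul (K := K) (m := m) (by omega)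
  rw [omega_eq] at h1
  have h2 : (0 : ℝ) < minMul K m :=
    lt_of_lt_of_le (Real.rpow_pos_of_pos (by linarith) _) h1
  rwa [Real.le_logb_iff_rpow_le hm1 h2]

theorem minMul_two : minMul K 2 = 5 ∨ minMul K 2 = 6 := by
  have h1 := sq_lt_minMul (K := K) (le_refl 2)
  have h2 := minMul_two_le (K := K)
  omega

/-- **Main theorem.** -/
theorem main (K : Type) [Field K] :
    (∀ m : ℕ, 1 ≤ m →
      (∀ (C : Type) [Ring C] [Algebra K C] [FiniteDimensional K C] [Nontrivial C] (r : ℕ),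
        Multiplies K C m r → (m : ℝ) ^ omega K ≤ r) ∧
      (∀ r : ℕ, (m : ℝ) ^ omega K < r → ∃ k : ℕ, 0 < k ∧ Multiplies K (Cat K m r k) m r) ∧
      (m : ℝ) ^ omega K ≤ minMul K m ∧ (minMul K m : ℝ) ≤ (m : ℝ) ^ omega K + 1) ∧
    (∀ m : ℕ, 2 ≤ m → m ^ 2 + 1 ≤ minMul K m) ∧
    (Superlinear (sizeMM K) ↔ ∃ m : ℕ, 2 ≤ m ∧ m ^ 2 + 2 ≤ minMul K m) ∧
    ((∀ α : ℝ, 1 < α → ∃ D : ℝ, ∀ m : ℕ, (sizeMM K m : ℝ) ≤ D * ((m : ℝ) ^ 2) ^ α) ↔
      ∀ m : ℕ, 2 ≤ m → minMul K m = m ^ 2 + 1) ∧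
    ((∀ m : ℕ, 2 ≤ m → minMul K m = m ^ 2 + 1) ∨
      ∃ α : ℝ, 1 < α ∧ ∀ m : ℕ, 1 ≤ m → ((m : ℝ) ^ 2) ^ α ≤ minMul K m) ∧
    (∀ m : ℕ, 2 ≤ m →
      (∀ n : ℕ, 1 ≤ n → (n : ℝ) ^ Real.logb m ((minMul K m : ℝ) - 1) ≤ 2 * mulMM K n ∧
        mulMM K n ≤ sizeMM K n) ∧
      ∀ τ : ℝ, Real.logb m (minMul K m) < τ →
        ∃ D : ℝ, ∀ n : ℕ, (sizeMM K n : ℝ) ≤ D * (n : ℝ) ^ τ) ∧
    (minMul K 2 = 5 ∨ minMul K 2 = 6) ∧
    (minMul K 2 = 5 → ∀ τ : ℝ, Real.logb 2 5 < τ →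
      ∃ D : ℝ, ∀ n : ℕ, (sizeMM K n : ℝ) ≤ D * (n : ℝ) ^ τ) ∧
    (minMul K 2 = 6 → ∀ n : ℕ, 1 ≤ n → (n : ℝ) ^ Real.logb 2 5 ≤ 2 * sizeMM K n) ∧
    (10 ≤ minMul K 3 ∧ minMul K 3 ≤ 16) ∧
    ∀ m : ℕ, 1 ≤ m → Multiplies K (Module.End K (ℕ →₀ K)) m 1 := by
  refine ⟨fun m hm => ⟨fun C _ _ _ _ r h => rpow_omega_le_of_multiplies hm h,
    fun r hr => exists_multiplies hm hr, rpow_omega_le_minMul hm, minMul_le_add_one hm⟩,
    fun m hm => sq_lt_minMul hm, superlinear_iff_minMul, nearly_iff_minMul, gap,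
    fun m hm => ⟨fun n hn => ⟨lower_all hm hn, mulMM_le_sizeMM n⟩, fun τ hτ => upper_all hm hτ⟩,
    minMul_two, ?_, ?_, ⟨sq_lt_minMul (m := 3) (by norm_num), minMul_three_le⟩,
    fun m hm => multiplies_one hm⟩
  · intro h τ hτ
    refine upper_all (m := 2) (le_refl 2) ?_
    rw [h]
    exact_mod_cast hτ
  · intro h n hn
    have h1 := lower_all (K := K) (m := 2) (le_refl 2) hn
    rw [h] at h1
    have h2 : (mulMM K n : ℝ) ≤ sizeMM K n := by exact_mod_cast mulMM_le_sizeMM (K := K) n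
    have e : Real.logb (2 : ℕ) (((6 : ℕ) : ℝ) - 1) = Real.logb 2 5 := by norm_num
    rw [e] at h1
    linarith

end Pool.Agent.H676.MM
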