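import Pool.Agent.H676.MM.Exp
import Pool.Agent.H676.G.R_pool_sql_team_seeded_620a6dc7.H792_Clique.Expo

set_option autoImplicit false

/-!
# Numerical values
-/

namespace Pool.Agent.H676.MM

open Finset Filter Topology Pool.Agent.W956.KF Pool.Agent.H826R3.SM Pool.Agent.H792_Clique

variable {K : Type} [Field K]

theorem rankLE_of_rk {m R : ℕ} (h : Rk (DSM Unit (Fin m)) R) : RankLE K m m m R := by
  obtain ⟨u, v, w, h⟩ := h
  refine ⟨fun l => Matrix.of fun i j => ((u l ((), i, j) : ℤ) : K),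
    fun l => Matrix.of fun j k => ((v l ((), j, k) : ℤ) : K),
    fun l => Matrix.of fun i k => ((w l ((), k, i) : ℤ) : K), fun i i' j j' k k' => ?_⟩
  have h1 := congrArg (Int.cast : ℤ → K) (h ((), i, j) ((), j', k) ((), k', i'))
  simp only [Matrix.of_apply]
  rw [Int.cast_sum] at h1
  simp only [Int.cast_mul] at h1
  rw [← h1]
  simp only [DSM, true_and]
  by_cases h2 : i = i' ∧ j = j' ∧ k = k'
  · obtain ⟨rfl, rfl, rfl⟩ := h2
    simp
  · rw [if_neg h2, if_neg, Int.cast_zero]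
    rintro ⟨h3, h4, h5⟩
    exact h2 ⟨h5.symm, h3, h4⟩

theorem omega_lt : omega K < 2.49 := by
  obtain ⟨m, R, hm, hlt, h⟩ := exists_fast
  have h1 : trank K m m m ≤ R := Nat.sInf_le (rankLE_of_rk h)
  have hm0 : (0 : ℝ) < m := by exact_mod_cast (by omega : 0 < m)
  have hm1 : (1 : ℝ) < m := by exact_mod_cast (by omega : 1 < m)
  have h2 : (m : ℝ) ^ omega K ≤ R := by
    rw [omega_eq]
    exact (rpow_omega_le K m (by omega)).trans (by exact_mod_cast h1)
  have h3 : ((m : ℝ) ^ omega K) ^ 100 < (m : ℝ) ^ (249 : ℝ) := by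
    calc ((m : ℝ) ^ omega K) ^ 100 ≤ (R : ℝ) ^ 100 :=
          pow_le_pow_left₀ (Real.rpow_nonneg hm0.le _) h2 100
      _ < ((m ^ 249 : ℕ) : ℝ) := by exact_mod_cast hlt
      _ = (m : ℝ) ^ (249 : ℝ) := by
        rw [show (249 : ℝ) = ((249 : ℕ) : ℝ) by norm_num, Real.rpow_natCast]
        push_cast
        rfl
  rw [← Real.rpow_natCast, ← Real.rpow_mul hm0.le] at h3
  have h4 := (Real.rpow_lt_rpow_left_iff hm1).1 h3
  push_cast at h4
  norm_num at h4 ⊢
  linarith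

theorem two_rpow_lt : (2 : ℝ) ^ (2.49 : ℝ) < 6 := by
  have h : ((2 : ℝ) ^ (2.49 : ℝ)) ^ 100 < 6 ^ 100 := by
    rw [← Real.rpow_natCast, ← Real.rpow_mul (by norm_num)]
    rw [show (2.49 : ℝ) * ((100 : ℕ) : ℝ) = ((249 : ℕ) : ℝ) by norm_num, Real.rpow_natCast]
    norm_num
  exact lt_of_pow_lt_pow_left₀ 100 (by norm_num) h

theorem three_rpow_lt : (3 : ℝ) ^ (2.49 : ℝ) < 16 := by
  have h : ((3 : ℝ) ^ (2.49 : ℝ)) ^ 100 < 16 ^ 100 := by
    rw [← Real.rpow_natCast, ← Real.rpow_mul (by norm_num)]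
    rw [show (2.49 : ℝ) * ((100 : ℕ) : ℝ) = ((249 : ℕ) : ℝ) by norm_num, Real.rpow_natCast]
    norm_num
  exact lt_of_pow_lt_pow_left₀ 100 (by norm_num) h

theorem minMul_two_le : minMul K 2 ≤ 6 := by
  refine minMul_le_of_lt (by norm_num) ?_
  have h : (2 : ℝ) ^ omega K < (2 : ℝ) ^ (2.49 : ℝ) :=
    Real.rpow_lt_rpow_of_exponent_lt (by norm_num) omega_lt
  exact_mod_cast h.trans two_rpow_lt

theorem minMul_three_le : minMul K 3 ≤ 16 := by
  refine minMul_le_of_lt (by norm_num) ?_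
  have h : (3 : ℝ) ^ omega K < (3 : ℝ) ^ (2.49 : ℝ) :=
    Real.rpow_lt_rpow_of_exponent_lt (by norm_num) omega_lt
  exact_mod_cast h.trans three_rpow_lt

end Pool.Agent.H676.MM
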