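import Pool.Agent.H676.MM.Emb

set_option autoImplicit false

/-!
# Iterating an algorithm for matrices over an algebra
-/

namespace Pool.Agent.H676.MM

open Matrix Finset

variable {K : Type} [Field K]

section

variable {D E : Type} [Ring D] [Algebra K D] [Ring E] [Algebra K E]

/-- entrywise application of a linear map -/
def mapL {n : Type} (f : D →ₗ[K] E) : Matrix n n D →ₗ[K] Matrix n n E where
  toFun X := X.map f
  map_add' X Y := by ext i j; simp
  map_smul' c X := by ext i j; simp

@[simp] theorem mapL_apply {n : Type} (f : D →ₗ[K] E) (X : Matrix n n D) (i j : n) :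
    mapL f X i j = f (X i j) := rfl

theorem Emb.matrix {n : Type} [Fintype n] [DecidableEq n] (h : Emb K D E) :
    Emb K (Matrix n n D) (Matrix n n E) := by
  obtain ⟨α, β, γ, h⟩ := h
  refine ⟨mapL α, mapL β, mapL γ, fun X Y => ?_⟩
  ext i k
  simp only [Matrix.mul_apply, mapL_apply, map_sum, h]

/-- matrices over a power -/
theorem Emb.matrix_pi {n ι : Type} [Fintype n] [DecidableEq n] :
    Emb K (Matrix n n (ι → D)) (ι → Matrix n n D) := by
  refine ⟨LinearMap.pi fun s => mapL (LinearMap.proj s), LinearMap.pi fun s => mapL (LinearMap.proj s),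
    { toFun := fun f => Matrix.of fun i j s => f s i j
      map_add' := fun f g => by ext i j s; rfl
      map_smul' := fun c f => by ext i j s; rfl }, fun X Y => ?_⟩
  ext i k s
  simp [Matrix.mul_apply, Finset.sum_apply]

theorem Emb.pi_matrix {n ι : Type} [Fintype n] [DecidableEq n] :
    Emb K (ι → Matrix n n D) (Matrix n n (ι → D)) := by
  refine ⟨{ toFun := fun f => Matrix.of fun i j s => f s i j
            map_add' := fun f g => by ext i j s; rfl
            map_smul' := fun c f => by ext i j s; rfl },
    { toFun := fun f => Matrix.of fun i j s => f s i j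
      map_add' := fun f g => by ext i j s; rfl
      map_smul' := fun c f => by ext i j s; rfl },
    LinearMap.pi fun s => mapL (LinearMap.proj s), fun X Y => ?_⟩
  funext s
  ext i k
  simp [Matrix.mul_apply, Finset.sum_apply]

/-- change of the index set of a power -/
theorem Emb.reindex {ι κ : Type} (e : κ ≃ ι) : Emb K (ι → D) (κ → D) := by
  refine ⟨LinearMap.funLeft K D e, LinearMap.funLeft K D e, LinearMap.funLeft K D e.symm,
    fun x y => ?_⟩
  funext i
  simp [LinearMap.funLeft]

theorem Emb.curry {ι κ : Type} : Emb K (ι → κ → D) (ι × κ → D) :=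
  ⟨{ toFun := fun f p => f p.1 p.2, map_add' := fun _ _ => rfl, map_smul' := fun _ _ => rfl },
    { toFun := fun f p => f p.1 p.2, map_add' := fun _ _ => rfl, map_smul' := fun _ _ => rfl },
    { toFun := fun f i j => f (i, j), map_add' := fun _ _ => rfl, map_smul' := fun _ _ => rfl },
    fun _ _ => rfl⟩

theorem Emb.uncurry {ι κ : Type} : Emb K (ι × κ → D) (ι → κ → D) :=
  ⟨{ toFun := fun f i j => f (i, j), map_add' := fun _ _ => rfl, map_smul' := fun _ _ => rfl },
    { toFun := fun f i j => f (i, j), map_add' := fun _ _ => rfl, map_smul' := fun _ _ => rfl },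
    { toFun := fun f p => f p.1 p.2, map_add' := fun _ _ => rfl, map_smul' := fun _ _ => rfl },
    fun _ _ => rfl⟩

/-- change of the index set of matrices -/
theorem Emb.reindexMatrix {n n' : Type} [Fintype n] [DecidableEq n] [Fintype n'] [DecidableEq n']
    (e : n ≃ n') : Emb K (Matrix n n D) (Matrix n' n' D) :=
  Emb.of_equiv (Matrix.reindexAlgEquiv K D e)

/-- matrices over matrices -/
theorem Emb.comp {n n' : Type} [Fintype n] [DecidableEq n] [Fintype n'] [DecidableEq n'] :
    Emb K (Matrix n n (Matrix n' n' D)) (Matrix (n × n') (n × n') D) :=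
  Emb.of_equiv (Matrix.compAlgEquiv n n' D K)

theorem Emb.comp_symm {n n' : Type} [Fintype n] [DecidableEq n] [Fintype n'] [DecidableEq n'] :
    Emb K (Matrix (n × n') (n × n') D) (Matrix n n (Matrix n' n' D)) :=
  Emb.of_equiv (Matrix.compAlgEquiv n n' D K).symm

end

/-- an algorithm for `m × m` matrices and `r` multiplications gives one for `m ^ k` and `r ^ k` -/
theorem emb_pow {C : Type} [Ring C] [Algebra K C] {m r : ℕ}
    (h : Emb K (Matrix (Fin m) (Fin m) C) (Fin r → C)) (k : ℕ) :
    Emb K (Matrix (Fin (m ^ k)) (Fin (m ^ k)) C) (Fin (r ^ k) → C) := by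
  induction k with
  | zero =>
    refine ⟨LinearMap.pi fun _ => ?_, LinearMap.pi fun _ => ?_, ?_, fun X Y => ?_⟩
    · exact (LinearMap.proj (0 : Fin (m ^ 0))) ∘ₗ (LinearMap.proj (0 : Fin (m ^ 0)))
    · exact (LinearMap.proj (0 : Fin (m ^ 0))) ∘ₗ (LinearMap.proj (0 : Fin (m ^ 0)))
    · exact { toFun := fun f => Matrix.of fun _ _ => f 0
              map_add' := fun f g => by ext i j; rfl
              map_smul' := fun c f => by ext i j; rfl }
    · ext i j
      have hi : i = 0 := Subsingleton.elim (α := Fin 1) i 0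
      have hj : j = 0 := Subsingleton.elim (α := Fin 1) j 0
      subst hi hj
      rw [Matrix.mul_apply]
      change ∑ j : Fin 1, X 0 j * Y j 0 = _
      simp
      rfl
  | succ k ih =>
    have e1 : Fin (m ^ (k + 1)) ≃ Fin (m ^ k) × Fin m :=
      (finCongr (pow_succ m k)).trans finProdFinEquiv.symm
    have e2 : Fin (r ^ (k + 1)) ≃ Fin r × Fin (r ^ k) :=
      (finCongr (pow_succ' r k)).trans finProdFinEquiv.symm
    exact (Emb.reindexMatrix e1).trans <| Emb.comp_symm.trans <| h.matrix.trans <|
      Emb.matrix_pi.trans <| (Emb.pi fun _ => ih).trans <| Emb.curry.trans <| Emb.reindex e2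

end Pool.Agent.H676.MM
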