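import Pool.Agent.H676.MM.Pow
import Pool.Agent.H676.G.R_seed8.W956.KF.Run
import Pool.Agent.H676.G.R_seed8.H88R3.MM.Power

set_option autoImplicit false

/-!
# Algebras and the rank of matrix multiplication
-/

namespace Pool.Agent.H676.MM

open Matrix Finset Pool.Agent.W956.KF

variable {K : Type} [Field K]

/-- the linear form with given coefficients -/
def frm {n : ℕ} (U : Matrix (Fin n) (Fin n) K) : Matrix (Fin n) (Fin n) K →ₗ[K] K where
  toFun A := ∑ i, ∑ j, U i j * A i j
  map_add' A B := by simp [mul_add, Finset.sum_add_distrib]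
  map_smul' c A := by
    simp only [Matrix.smul_apply, smul_eq_mul, RingHom.id_apply, Finset.mul_sum]
    exact Finset.sum_congr rfl fun i _ => Finset.sum_congr rfl fun j _ => by ring

theorem emb_of_rank {n R : ℕ} (h : RankLE K n n n R) :
    Emb K (Matrix (Fin n) (Fin n) K) (Fin R → K) := by
  obtain ⟨U, V, W, h⟩ := h
  have h1 : Pool.Agent.H88R3.MM.IsAlg U V W :=
    Pool.Agent.H88R3.MM.isAlg_of_coeff fun i i' j j' k k' => h i i' j j' k k'
  refine ⟨LinearMap.pi fun l => frm (U l), LinearMap.pi fun l => frm (V l),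
    ∑ l, (LinearMap.proj l : (Fin R → K) →ₗ[K] K).smulRight (W l), fun A B => ?_⟩
  rw [h1 A B]
  simp [frm]

theorem rank_of_emb {C : Type} [Ring C] [Algebra K C] [FiniteDimensional K C] [Nontrivial C]
    {n R : ℕ} (h : Emb K (Matrix (Fin n) (Fin n) C) (Fin R → C)) :
    RankLE K n n n (R * Module.finrank K C ^ 2) := by
  obtain ⟨α, β, γ, h⟩ := h
  set d := Module.finrank K C with hd
  let b : Module.Basis (Fin d) K C := Module.finBasis K C
  have hinj : LinearMap.ker (Algebra.linearMap K C) = ⊥ :=
    LinearMap.ker_eq_bot.2 (algebraMap K C).injective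
  obtain ⟨f, hf⟩ := LinearMap.exists_leftInverse_of_injective _ hinj
  have hf1 : f 1 = 1 := by
    have := LinearMap.congr_fun hf 1
    simpa using this
  let P : Fin R × (Fin d × Fin d) → Matrix (Fin n) (Fin n) K := fun t =>
    Matrix.of fun i j => b.repr (α (Matrix.single i j 1) t.1) t.2.1
  let Q : Fin R × (Fin d × Fin d) → Matrix (Fin n) (Fin n) K := fun t =>
    Matrix.of fun i j => b.repr (β (Matrix.single i j 1) t.1) t.2.2
  let W : Fin R × (Fin d × Fin d) → Matrix (Fin n) (Fin n) K := fun t =>
    Matrix.of fun i j => f (γ (Pi.single t.1 (b t.2.1 * b t.2.2)) i j)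
  have key := rankLE_of_fintype (K := K) (m := n) (n := n) (p := n) P Q W ?_
  · have hc : Fintype.card (Fin R × (Fin d × Fin d)) = R * d ^ 2 := by
      simp [sq]
    rwa [hc] at key
  intro i i' j j' k k'
  have h1 : ∀ s : Fin R, α (Matrix.single i j 1) s * β (Matrix.single j' k 1) s =
      ∑ a, ∑ c, (b.repr (α (Matrix.single i j 1) s) a * b.repr (β (Matrix.single j' k 1) s) c) •
        (b a * b c) := by
    intro s
    conv_lhs => rw [← b.sum_repr (α (Matrix.single i j 1) s),
      ← b.sum_repr (β (Matrix.single j' k 1) s)]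
    rw [Finset.sum_mul]
    refine Finset.sum_congr rfl fun a _ => ?_
    rw [Finset.mul_sum]
    refine Finset.sum_congr rfl fun c _ => ?_
    rw [smul_mul_smul_comm]
  have h2 : α (Matrix.single i j 1) * β (Matrix.single j' k 1) =
      ∑ s : Fin R, ∑ a, ∑ c, (b.repr (α (Matrix.single i j 1) s) a *
        b.repr (β (Matrix.single j' k 1) s) c) • (Pi.single s (b a * b c) : Fin R → C) := by
    rw [← Finset.univ_sum_single (α (Matrix.single i j 1) * β (Matrix.single j' k 1))]
    refine Finset.sum_congr rfl fun s _ => ?_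
    rw [Pi.mul_apply, h1]
    rw [← LinearMap.coe_single (R := K) (φ := fun _ : Fin R => C), map_sum]
    refine Finset.sum_congr rfl fun a _ => ?_
    rw [map_sum]
    refine Finset.sum_congr rfl fun c _ => ?_
    rw [map_smul]
  have h3 : f ((Matrix.single i j (1 : C) * Matrix.single j' k 1 :
      Matrix (Fin n) (Fin n) C) i' k') =
      ∑ t : Fin R × (Fin d × Fin d), P t i j * Q t j' k * W t i' k' := by
    rw [h, h2]
    simp only [map_sum, Matrix.sum_apply, map_smul, Matrix.smul_apply, smul_eq_mul]
    rw [Fintype.sum_prod_type]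
    refine Finset.sum_congr rfl fun s _ => ?_
    rw [Fintype.sum_prod_type]
    rfl
  rw [← h3]
  by_cases hj : j = j'
  · subst hj
    rw [Matrix.single_mul_single_same, mul_one]
    by_cases hi : i = i' <;> by_cases hk : k = k' <;> simp [hi, hk, hf1, Matrix.single_apply]
  · rw [Matrix.single_mul_single_of_ne _ _ _ _ hj]
    simp [hj]

end Pool.Agent.H676.MM
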