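import Pool.Agent.H676.MM.Rank

set_option autoImplicit false

/-!
# The algebra `∏_{i < k} M_{m^i}(K)^{r^(k-1-i)}`
-/

namespace Pool.Agent.H676.MM

open Matrix Finset Pool.Agent.W956.KF

variable {K : Type} [Field K]

section

theorem Emb.matrix_dpi {n ι : Type} [Fintype n] [DecidableEq n] {D : ι → Type} [∀ i, Ring (D i)]
    [∀ i, Algebra K (D i)] : Emb K (Matrix n n (∀ i, D i)) (∀ i, Matrix n n (D i)) := by
  refine ⟨LinearMap.pi fun s => mapL (LinearMap.proj s),
    LinearMap.pi fun s => mapL (LinearMap.proj s),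
    { toFun := fun f => Matrix.of fun i j s => f s i j
      map_add' := fun f g => by ext i j s; rfl
      map_smul' := fun c f => by ext i j s; rfl }, fun X Y => ?_⟩
  ext i k s
  simp [Matrix.mul_apply]

theorem Emb.swap {ι κ : Type} {D : ι → Type} [∀ i, Ring (D i)] [∀ i, Algebra K (D i)] :
    Emb K (∀ i, κ → D i) (κ → ∀ i, D i) :=
  ⟨{ toFun := fun f s i => f i s, map_add' := fun _ _ => rfl, map_smul' := fun _ _ => rfl },
    { toFun := fun f s i => f i s, map_add' := fun _ _ => rfl, map_smul' := fun _ _ => rfl },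
    { toFun := fun f i s => f s i, map_add' := fun _ _ => rfl, map_smul' := fun _ _ => rfl },
    fun _ _ => rfl⟩

/-- dependent change of indices -/
theorem Emb.dreindex {ι : Type} {D : ι → Type} [∀ i, Ring (D i)] [∀ i, Algebra K (D i)]
    (e : ι ≃ ι) : Emb K (∀ i, D (e i)) (∀ i, D i) := by
  refine Emb.of_equiv (AlgEquiv.ofLinearEquiv (LinearEquiv.piCongrLeft K D e) ?_ ?_)
  · funext i
    obtain ⟨j, rfl⟩ := e.surjective i
    exact Equiv.piCongrLeft_apply_apply D e 1 j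
  · intro x y
    funext i
    obtain ⟨j, rfl⟩ := e.surjective i
    exact (Equiv.piCongrLeft_apply_apply D e (x * y) j).trans
      (congrArg₂ (· * ·) (Equiv.piCongrLeft_apply_apply D e x j).symm
        (Equiv.piCongrLeft_apply_apply D e y j).symm)

end

/-- the `j`-th layer -/
abbrev Lay (K : Type) [Field K] (m r k j : ℕ) : Type :=
  Fin (r ^ (k - j)) → Matrix (Fin (m ^ j)) (Fin (m ^ j)) K

theorem lay_up (m r k : ℕ) (i : Fin k) :
    Emb K (Matrix (Fin m) (Fin m) (Fin (r ^ (k - 1 - i)) →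
      Matrix (Fin (m ^ (i : ℕ))) (Fin (m ^ (i : ℕ))) K)) (Lay K m r k (i + 1)) := by
  have e1 : Fin m × Fin (m ^ (i : ℕ)) ≃ Fin (m ^ ((i : ℕ) + 1)) :=
    finProdFinEquiv.trans (finCongr (pow_succ' m i).symm)
  have e2 : Fin (r ^ (k - ((i : ℕ) + 1))) ≃ Fin (r ^ (k - 1 - (i : ℕ))) :=
    finCongr (by congr 1; omega)
  exact Emb.matrix_pi.trans <| (Emb.pi fun _ => Emb.comp.trans (Emb.reindexMatrix e1)).trans <|
    Emb.reindex e2

theorem lay_split (m r k : ℕ) (i : Fin k) :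
    Emb K (Lay K m r k i) (Fin r → Fin (r ^ (k - 1 - i)) →
      Matrix (Fin (m ^ (i : ℕ))) (Fin (m ^ (i : ℕ))) K) := by
  have hi := i.2
  have e : Fin r × Fin (r ^ (k - 1 - (i : ℕ))) ≃ Fin (r ^ (k - (i : ℕ))) :=
    finProdFinEquiv.trans (finCongr (by
      rw [← pow_succ']
      congr 1
      omega))
  exact (Emb.reindex e).trans Emb.uncurry

theorem lay_top {m r k : ℕ} (h : RankLE K (m ^ k) (m ^ k) (m ^ k) (r ^ k)) :
    Emb K (Lay K m r k k) (Lay K m r k 0) := by
  have e0 : Unit ≃ Fin (r ^ (k - k)) :=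
    (Equiv.ofUnique Unit (Fin 1)).trans (finCongr (by simp : 1 = r ^ (k - k)))
  have h1 : Emb K (Lay K m r k k) (Unit → Fin (r ^ k) → K) :=
    (Emb.reindex e0).trans (Emb.pi fun _ => emb_of_rank h)
  have e1 : Fin (r ^ (k - 0)) ≃ Unit × Fin (r ^ k) :=
    (finCongr (by simp)).trans (Equiv.punitProd _).symm
  have h2 : Emb K K (Matrix (Fin (m ^ 0)) (Fin (m ^ 0)) K) := by
    refine ⟨(Matrix.scalarAlgHom (Fin (m ^ 0)) K).toLinearMap,
      (Matrix.scalarAlgHom (Fin (m ^ 0)) K).toLinearMap,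
      (LinearMap.proj (0 : Fin (m ^ 0))) ∘ₗ (LinearMap.proj (0 : Fin (m ^ 0))), fun x y => ?_⟩
    change x * y = (Matrix.scalar (Fin (m ^ 0)) x * Matrix.scalar (Fin (m ^ 0)) y :
      Matrix (Fin (m ^ 0)) (Fin (m ^ 0)) K) 0 0
    rw [← map_mul]
    change x * y = Matrix.diagonal (fun _ : Fin (m ^ 0) => x * y) 0 0
    rw [Matrix.diagonal_apply_eq]
  exact h1.trans <| Emb.curry.trans <| (Emb.reindex e1).trans <| Emb.pi fun _ => h2

theorem lay_step {m r k : ℕ} (h : RankLE K (m ^ (k + 1)) (m ^ (k + 1)) (m ^ (k + 1)) (r ^ (k + 1)))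
    (i : Fin (k + 1)) :
    Emb K (Lay K m r (k + 1) (i + 1)) (Lay K m r (k + 1) (finRotate (k + 1) i : Fin (k + 1))) := by
  rcases Fin.eq_castSucc_or_eq_last i with ⟨j, rfl⟩ | rfl
  · have e : ((finRotate (k + 1) j.castSucc : Fin (k + 1)) : ℕ) = (j.castSucc : ℕ) + 1 := by
      exact coe_finRotate_of_ne_last (Fin.castSucc_lt_last j).ne
    rw [e]
    exact Emb.refl
  · have e : ((finRotate (k + 1) (Fin.last k) : Fin (k + 1)) : ℕ) = 0 := by simp
    rw [e]
    exact lay_top h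

/-- If the rank of `m ^ k` by `m ^ k` matrix multiplication is at most `r ^ k` then `m × m` matrices
over the algebra `Cat K m r k` can be multiplied with `r` multiplications. -/
theorem multiplies_cat {m r k : ℕ} (hk : 0 < k)
    (h : RankLE K (m ^ k) (m ^ k) (m ^ k) (r ^ k)) : Multiplies K (Cat K m r k) m r := by
  obtain ⟨k, rfl⟩ : ∃ k', k = k' + 1 := ⟨k - 1, by omega⟩
  rw [multiplies_iff]
  have h1 : Emb K (Matrix (Fin m) (Fin m) (Cat K m r (k + 1)))
      (∀ i : Fin (k + 1), Lay K m r (k + 1) (i + 1)) :=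
    Emb.matrix_dpi.trans (Emb.pi fun i => lay_up m r (k + 1) i)
  have h2 : Emb K (∀ i : Fin (k + 1), Lay K m r (k + 1) (i + 1))
      (∀ i : Fin (k + 1), Lay K m r (k + 1) (finRotate (k + 1) i : Fin (k + 1))) :=
    Emb.pi fun i => lay_step h i
  have h3 : Emb K (∀ i : Fin (k + 1), Lay K m r (k + 1) (finRotate (k + 1) i : Fin (k + 1)))
      (∀ i : Fin (k + 1), Lay K m r (k + 1) i) :=
    Emb.dreindex (D := fun i : Fin (k + 1) => Lay K m r (k + 1) i) (finRotate (k + 1))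
  have h4 : Emb K (∀ i : Fin (k + 1), Lay K m r (k + 1) i) (Fin r → Cat K m r (k + 1)) :=
    (Emb.pi fun i => lay_split m r (k + 1) i).trans Emb.swap
  exact h1.trans (h2.trans (h3.trans h4))

end Pool.Agent.H676.MM
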